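import Pool.Agent.Q224.ESG.LOCG
import Pool.Agent.Q299.ESM.Rpx
import Pool.Agent.Q124.ESM.CNTM

/-! Project ESG (helper161), job CNTG: the count. -/

set_option autoImplicit false

namespace Pool.Agent.Q224.ESG

open Polynomial NumberField IsDedekindDomain Finset Pool.Agent.Q161.ESM
open Pool.Agent.Q51.EL (Abv Par)
open Pool.Agent.Q161.EA (Nice)
open Pool.Agent.Q124.ESM (mem_of_val_lt val_one exp_neg_lt mv_of_fb exists_abv D_uniq)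

section

variable {K : Type} [Field K] [NumberField K] {L : Type} [Field L] [NumberField L]
  {Bs : Type} [Field Bs] {inc : Bs →+* L} {th : 𝓞 L}

theorem gd_mono {B B' : ℕ} (h : B ∣ B') {D : ℤ} {δ : L} (hG : Gd1 K inc th B D δ) :
    Gd1 K inc th B' D δ :=
  ⟨fun l hl hB => hG.even l hl fun h' => hB (h'.trans h),
    fun l hl hB => hG.odd l hl fun h' => hB (h'.trans h)⟩

theorem sq_of {α α' a q q' δ δ' η η' : L}
    (hα : α ≠ 0) (hq : q ≠ 0) (hη : η ≠ 0) (hη' : η' ≠ 0)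
    (h : α = δ * η ^ 2) (h' : α' = δ' * η' ^ 2) (ha : a ≠ 0)
    (e : α' * (a * q ^ 2) = α * (a * q' ^ 2)) : IsSquare (δ * δ') := by
  have e2 : α' * q ^ 2 = α * q' ^ 2 := by
    apply mul_left_cancel₀ ha
    calc a * (α' * q ^ 2) = α' * (a * q ^ 2) := by ring
      _ = α * (a * q' ^ 2) := e
      _ = a * (α * q' ^ 2) := by ring
  refine ⟨α * q' / (q * η * η'), ?_⟩
  have e3 : δ * δ' * (η ^ 2 * η' ^ 2 * q ^ 2) = α * (α' * q ^ 2) := by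
    rw [h, h']; ring
  rw [e2] at e3
  have e4 : η ^ 2 * η' ^ 2 * q ^ 2 ≠ 0 :=
    mul_ne_zero (mul_ne_zero (pow_ne_zero 2 hη) (pow_ne_zero 2 hη')) (pow_ne_zero 2 hq)
  apply mul_right_cancel₀ e4
  rw [e3]
  field_simp

end

section C

variable {C : Type} {K : Type} [Field K] [NumberField K] {L : C → Type}
  [∀ c, Field (L c)] [∀ c, NumberField (L c)] {Bs : C → Type} [∀ c, Field (Bs c)]
  {V : Type} [AddCommGroup V] [DistribMulAction (K ≃ₐ[ℚ] K) V]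
  {inc : (c : C) → Bs c →+* L c} {th : (c : C) → 𝓞 (L c)}
  {cd : V →+ ((c : C) → (L c →+* K) → ZMod 2)} {B : ℕ} {D : ℤ} {α : (c : C) → 𝓞 (L c)}
  {z : V → 𝓞 K}

/-- the types exist -/
theorem tp_ex (hV : VB inc cd) (hR : RG0 inc th cd B D α z) {l : ℕ} (hl : l.Prime)
    (hB : ¬ l ∣ B) {w : HeightOneSpectrum (𝓞 K)} (hw : Abv w l) {F : K ≃ₐ[ℚ] K} (hF : Fb w l F)
    (hD : (l : ℤ) ∣ D) : ∃ t : V, TpG cd α w t := by
  choose e h1 h2 h3 h4 using fun c => (hR.gd c).odd l hl hB hD w hw F hF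
  obtain ⟨t, ht⟩ := (hV.im e).2 h1
  refine ⟨t, fun c ι => ⟨fun h => ?_, fun h => ?_⟩⟩
  · rw [ht] at h
    obtain ⟨k, hk⟩ := (h3 c ι).1 h
    rcases hR.nrm l hl hB w hw c ι with h5 | h5
    · exact h5
    · exfalso
      rw [h5, WithZero.exp_inj] at hk
      omega
  · rw [ht] at h
    obtain ⟨k, hk⟩ := (h3 c ι).2 h
    rcases hR.nrm l hl hB w hw c ι with h5 | h5
    · exfalso
      rw [h5, ← WithZero.exp_zero, WithZero.exp_inj] at hk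
      omega
    · exact h5

end C

/-- **CNTG** -/
theorem cntg : S_NIG → S_RELG → S_LOCG → S_MN → S_CNTG := by
  classical
  intro hNIG hREL hLOC hMN C _ L Bs _ _ _ K _ _ _ inc th hDat V _ _ _ cd hV hsemi Bg hBg
  obtain ⟨hv2, hinv⟩ := hNIG C L Bs K inc th hDat V cd hV
  obtain ⟨ι, _, _, Lf, _, _, em, rp, hRp⟩ := Pool.Agent.Q299.ESM.rpx K V
  obtain ⟨Bf, hBf, hfr⟩ := Pool.Agent.Q224.ESM.frx K
  obtain ⟨Bl, hBl, hLOC⟩ := hLOC C L Bs K inc th hDat V cd hV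
  obtain ⟨B, C1, K0, Qm, Qa, hBB, hB0, hC, hrel⟩ :=
    hREL C L Bs K inc th hDat V cd hV ι Lf em rp hRp (Bg * (Bf * Bl))
      (mul_ne_zero hBg (mul_ne_zero hBf hBl))
  have dg : Bg ∣ Bg * (Bf * Bl) := Dvd.intro _ rfl
  have df : Bf ∣ B := ((Dvd.intro _ rfl).trans (Dvd.intro_left _ rfl)).trans hBB
  have dl : Bl ∣ B := ((Dvd.intro_left _ rfl).trans (Dvd.intro_left _ rfl)).trans hBB
  obtain ⟨T, hT⟩ : ∃ T : ℤ → ((c : C) → L c) → Set (V → 𝓞 K),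
      T = fun μ a => {z | (∃ (D : ℤ) (α : (c : C) → 𝓞 (L c)), RG inc th cd B μ a D α z) ∧
        ∀ i, ∃ β : 𝓞 (Lf i), em i (β : Lf i) = (z (rp i) : K) ∧ Nice K0 β} := ⟨_, rfl⟩
  have hcb : ∀ (μ : ℤ) (a : (c : C) → L c), ∃ C : ℝ, 0 < C ∧ ∀ X : ℝ, 1 ≤ X →
      {z ∈ T μ a | ∃ N : ℤ, ∏ t, z t = (N : 𝓞 K) ∧ |(N : ℝ)| ≤ X}.Finite ∧
      (({z ∈ T μ a | ∃ N : ℤ, ∏ t, z t = (N : 𝓞 K) ∧ |(N : ℝ)| ≤ X}.ncard : ℕ) : ℝ) ≤ C * X := by
    intro μ a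
    refine hMN K V hv2 hsemi hinv ι Lf em rp hRp B K0 (T μ a) hB0 ?_ ?_
    · intro z hz
      rw [hT] at hz
      obtain ⟨⟨D, α, hz1⟩, hz2⟩ := hz
      exact ⟨hz1.rel.eqv, hz2⟩
    · intro l hl hlB w F hw hFb
      have h1 := hLOC B dl hB0 μ a l hl hlB w F hw hFb
      have h2 : ∀ z ∈ T μ a, z ∈ {z : V → 𝓞 K | ∃ (D : ℤ) (α : (c : C) → 𝓞 (L c)),
          RG inc th cd B μ a D α z} := by
        intro z hz
        rw [hT] at hz
        exact hz.1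
      exact ⟨fun z hz => h1.one z (h2 z hz), fun z hz z' hz' => h1.two z (h2 z hz) z' (h2 z' hz')⟩
  choose Cb hCb0 hCb using hcb
  obtain ⟨Q, hQ⟩ : ∃ Q : Finset (ℤ × ((c : C) → L c)), Q = Qm ×ˢ Qa := ⟨_, rfl⟩
  refine ⟨(∑ p ∈ Q, Cb p.1 p.2) * (C1 + 1) * (2 * (B + 1)) + 1, ?_, ?_⟩
  · have : 0 ≤ ∑ p ∈ Q, Cb p.1 p.2 := Finset.sum_nonneg fun p _ => (hCb0 _ _).le
    positivity
  intro F hF1 hF2 X hX
  have hCX : 1 ≤ (C1 + 1) * X := by nlinarith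
  obtain ⟨U, hU⟩ : ∃ U : Finset (Σ _ : ℤ, (c : C) → L c),
      U = ((Icc (-⌊X⌋) ⌊X⌋).filter (fun D : ℤ => Squarefree D)).sigma
        (fun D => Fintype.piFinset fun c => F c D) := ⟨_, rfl⟩
  have hUc : (∑ D ∈ (Icc (-⌊X⌋) ⌊X⌋).filter (fun D : ℤ => Squarefree D), ∏ c, (F c D).card) =
      U.card := by
    rw [hU, card_sigma]
    refine sum_congr rfl fun D _ => ?_
    rw [Fintype.card_piFinset]
  have hUmem : ∀ x ∈ U, Squarefree x.1 ∧ (∀ c, x.2 c ∈ F c x.1) ∧ (x.1.natAbs : ℝ) ≤ X := by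
    intro x hx
    rw [hU, mem_sigma, mem_filter, mem_Icc] at hx
    obtain ⟨⟨⟨h1, h2⟩, h3⟩, h4⟩ := hx
    refine ⟨h3, fun c => Fintype.mem_piFinset.1 h4 c, ?_⟩
    have h5 : (x.1.natAbs : ℤ) ≤ ⌊X⌋ := by omega
    calc (x.1.natAbs : ℝ) = ((x.1.natAbs : ℤ) : ℝ) := by simp
      _ ≤ (⌊X⌋ : ℝ) := by exact_mod_cast h5
      _ ≤ X := Int.floor_le X
  have hex : ∀ x ∈ U, ∃ y : (ℤ × ((c : C) → L c)) × (V → 𝓞 K),
      y.1 ∈ Q ∧ (∃ α : (c : C) → 𝓞 (L c), RG inc th cd B y.1.1 y.1.2 x.1 α y.2 ∧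
        ∀ c, ∃ η : L c, η ≠ 0 ∧ (α c : L c) = x.2 c * η ^ 2) ∧
      (∀ i, ∃ β : 𝓞 (Lf i), em i (β : Lf i) = (y.2 (rp i) : K) ∧ Nice K0 β) ∧
      ∃ N : ℤ, ∏ t, y.2 t = (N : 𝓞 K) ∧ |(N : ℝ)| ≤ C1 * (x.1.natAbs : ℝ) := by
    intro x hx
    obtain ⟨h1, h2, -⟩ := hUmem x hx
    obtain ⟨μ, hμ, a, ha, α, z, k1, k2, k3, k4⟩ :=
      hrel x.1 x.2 h1 (fun c => (hF1 c x.1 (x.2 c) (h2 c)).1)
        (fun c => gd_mono dg (hF1 c x.1 (x.2 c) (h2 c)).2)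
    refine ⟨((μ, a), z), ?_, ⟨α, k1, k4⟩, k2, k3⟩
    rw [hQ, mem_product]
    exact ⟨hμ, ha⟩
  choose! Ψ hΨ using hex
  obtain ⟨bx, hbx⟩ : ∃ bx : (ℤ × ((c : C) → L c)) → Finset (V → 𝓞 K),
      ∀ p, (∀ z, z ∈ bx p ↔ z ∈ {z ∈ T p.1 p.2 | ∃ N : ℤ, ∏ t, z t = (N : 𝓞 K) ∧
        |(N : ℝ)| ≤ (C1 + 1) * X}) ∧ ((bx p).card : ℝ) ≤ Cb p.1 p.2 * ((C1 + 1) * X) := by
    refine ⟨fun p => (hCb p.1 p.2 ((C1 + 1) * X) hCX).1.toFinset, ?_⟩
    intro p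
    refine ⟨fun z => Set.Finite.mem_toFinset _, ?_⟩
    rw [← Set.ncard_eq_toFinset_card _ (hCb p.1 p.2 ((C1 + 1) * X) hCX).1]
    exact (hCb p.1 p.2 ((C1 + 1) * X) hCX).2
  obtain ⟨W, hW⟩ : ∃ W : Finset ((Σ _ : (ℤ × ((c : C) → L c)), (V → 𝓞 K)) ×
      (Bool × ℕ)), W = (Q.sigma (fun p => bx p)) ×ˢ ((univ : Finset Bool) ×ˢ (range (B + 1))) :=
    ⟨_, rfl⟩
  have hWc : (W.card : ℝ) ≤ (∑ p ∈ Q, Cb p.1 p.2) * ((C1 + 1) * X) * (2 * (B + 1)) := by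
    rw [hW, card_product, card_product, card_sigma, card_range]
    push_cast
    rw [Finset.card_univ, Fintype.card_bool]
    push_cast
    apply mul_le_mul_of_nonneg_right _ (by positivity)
    rw [Finset.sum_mul]
    exact Finset.sum_le_sum fun p _ => (hbx p).2
  have hle : U.card ≤ W.card := by
    apply Finset.card_le_card_of_injOn
      (fun x => ((⟨(Ψ x).1, (Ψ x).2⟩ : Σ _ : (ℤ × ((c : C) → L c)), (V → 𝓞 K)),
        (decide (0 < x.1), Nat.gcd x.1.natAbs B)))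
    · intro x hx
      have hx' : x ∈ U := hx
      obtain ⟨h1, h2, h3⟩ := hUmem x hx'
      obtain ⟨k1, ⟨α, k2, -⟩, k3, N, k4, k5⟩ := hΨ x hx'
      rw [mem_coe, hW, mem_product, mem_sigma, mem_product, mem_range]
      refine ⟨⟨k1, ?_⟩, mem_univ _, ?_⟩
      · rw [(hbx _).1]
        refine ⟨?_, N, k4, k5.trans ?_⟩
        · rw [hT]
          exact ⟨⟨x.1, α, k2⟩, k3⟩
        · nlinarith
      · exact Nat.lt_succ_of_le (Nat.gcd_le_right _ (Nat.pos_of_ne_zero hB0))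
    · intro x hx x' hx' hxx
      have hxU : x ∈ U := hx
      have hxU' : x' ∈ U := hx'
      simp only [Prod.mk.injEq] at hxx
      obtain ⟨hΨΨ, hsgn, hgcd⟩ := hxx
      have hΨeq : Ψ x = Ψ x' := by
        have h1 := congrArg Sigma.fst hΨΨ
        have h2 := congrArg (fun z : (Σ _ : (ℤ × ((c : C) → L c)), (V → 𝓞 K)) => z.2) hΨΨ
        exact Prod.ext h1 h2
      obtain ⟨h1, h2, -⟩ := hUmem x hxU
      obtain ⟨h1', h2', -⟩ := hUmem x' hxU'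
      obtain ⟨-, ⟨α, hR, hα⟩, -, -⟩ := hΨ x hxU
      obtain ⟨-, ⟨α', hR', hα'⟩, -, -⟩ := hΨ x' hxU'
      rw [← hΨeq] at hR'
      have hDl : ∀ {D : ℤ} {α : (c : C) → 𝓞 (L c)},
          RG inc th cd B (Ψ x).1.1 (Ψ x).1.2 D α (Ψ x).2 →
          ∀ l : ℕ, l.Prime → ¬ l ∣ B → ((l : ℤ) ∣ D ↔
            ∃ (w : HeightOneSpectrum (𝓞 K)) (t : V), Abv w l ∧ (Ψ x).2 t ∈ w.asIdeal) := by
        intro D α hR l hl hlB
        constructor
        · intro hD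
          obtain ⟨w, hw⟩ := exists_abv K hl
          obtain ⟨-, -, hfr2⟩ := hfr l hl fun h => hlB (h.trans df)
          obtain ⟨⟨F, hFb⟩, -⟩ := hfr2 w hw
          obtain ⟨t, ht⟩ := tp_ex hV hR.rel hl hlB hw hFb hD
          exact ⟨w, t, hw, (mem_iff hR.rel hl hlB hw t).2 ⟨hD, ht⟩⟩
        · rintro ⟨w, t, hw, ht⟩
          exact ((mem_iff hR.rel hl hlB hw t).1 ht).1
      have hD : x.1 = x'.1 := D_uniq h1 h1'
        (fun l hl hlB => (hDl hR l hl hlB).trans (hDl hR' l hl hlB).symm) hgcd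
        (decide_eq_decide.1 hsgn)
      have hδ : x.2 = x'.2 := by
        funext c
        by_contra hne
        have h3' := h2' c
        rw [← hD] at h3'
        obtain ⟨η, hη, he⟩ := hα c
        obtain ⟨η', hη', he'⟩ := hα' c
        obtain ⟨q, hq, hqa⟩ := hR.qa c
        obtain ⟨q', hq', hqa'⟩ := hR'.qa c
        have hα0 : ((α c : 𝓞 (L c)) : L c) ≠ 0 := cne (hR.rel.a0 c)
        obtain ⟨ι0⟩ := (hDat c).emb
        have e1 := hqa ι0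
        have e2 := hqa' ι0
        have hP : (∏ t ∈ univ.filter (fun t => cd t c ι0 = 1), ((Ψ x).2 t : K)) ≠ 0 := by
          rw [prod_ne_zero_iff]
          intro t _
          exact cne (hR.rel.ne t)
        have ha0 : (Ψ x).1.2 c ≠ 0 := by
          intro h
          rw [h, map_zero, zero_mul] at e1
          exact mul_ne_zero ((_root_.map_ne_zero ι0).2 hα0) hP e1
        refine hF2 c x.1 (x.2 c) (h2 c) (x'.2 c) h3' hne
          (sq_of (q' := q') hα0 hq hη hη' he he' ha0 ?_)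
        apply ι0.injective
        apply mul_left_cancel₀ hP
        rw [map_mul, map_mul, map_mul, map_mul, map_pow, map_pow, ← e1, ← e2]
        ring
      obtain ⟨D, δ⟩ := x
      obtain ⟨D', δ'⟩ := x'
      simp only at hD hδ
      rw [hD, hδ]
  rw [hUc]
  have h1 : (U.card : ℝ) ≤ W.card := by exact_mod_cast hle
  have h2 := h1.trans hWc
  have h3 : ((∑ p ∈ Q, Cb p.1 p.2) * (C1 + 1) * (2 * (B + 1)) + 1) * X =
      (∑ p ∈ Q, Cb p.1 p.2) * ((C1 + 1) * X) * (2 * (B + 1)) + X := by ring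
  rw [h3]
  linarith

end Pool.Agent.Q224.ESG
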