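import Pool.Agent.Q161.ESM.Stm4

/-! Project ESG (helper161), job DUALG: the linear forms on `V`. -/

set_option autoImplicit false

namespace Pool.Agent.Q224.ESG

open Polynomial NumberField IsDedekindDomain Finset Pool.Agent.Q161.ESM

theorem z2 (x : ZMod 2) : x = 0 ∨ x = 1 := by revert x; decide

theorem z2add (x : ZMod 2) : x + x = 0 := by revert x; decide

section

open Classical in
theorem sum_block {X Y : Type} [Fintype X] (π : X → Y) (e : X → ZMod 2) (p : Y → ZMod 2)
    (h : ∀ y, ∑ x ∈ univ.filter (fun x => π x = y), e x = 0) : ∑ x, p (π x) * e x = 0 := by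
  rw [← Finset.sum_fiberwise_of_maps_to (s := univ) (t := univ.image π) (g := π)
    (fun x _ => mem_image_of_mem π (mem_univ x))]
  refine sum_eq_zero fun y _ => ?_
  have h1 : ∑ x ∈ univ.filter (fun x => π x = y), p (π x) * e x =
      ∑ x ∈ univ.filter (fun x => π x = y), p y * e x :=
    sum_congr rfl fun x hx => by rw [(mem_filter.1 hx).2]
  rw [h1, ← mul_sum, h, mul_zero]

end

section

variable {K : Type} [Field K] [NumberField K] {L : Type} [Field L] [NumberField L]

theorem cp_apply (g : K ≃ₐ[ℚ] K) (ι : L →+* K) (x : L) : cp g ι x = g (ι x) := rfl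

/-- `cp g` as a bijection -/
def cpe (g : K ≃ₐ[ℚ] K) : (L →+* K) ≃ (L →+* K) where
  toFun := cp g
  invFun := cp g⁻¹
  left_inv ι := by
    ext x
    rw [cp_apply, cp_apply]
    exact g.symm_apply_apply _
  right_inv ι := by
    ext x
    rw [cp_apply, cp_apply]
    exact g.apply_symm_apply _

theorem cpe_apply (g : K ≃ₐ[ℚ] K) (ι : L →+* K) : cpe g ι = cp g ι := rfl

theorem cp_comp {Bs : Type} [Field Bs] (g : K ≃ₐ[ℚ] K) (ι : L →+* K) (inc : Bs →+* L) :
    (cp g ι).comp inc = (g : K →+* K).comp (ι.comp inc) := rfl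

end

section C

variable {C : Type} [Fintype C] {K : Type} [Field K] [NumberField K] {L : C → Type}
  [∀ c, Field (L c)] [∀ c, NumberField (L c)] {Bs : C → Type} [∀ c, Field (Bs c)]
  {V : Type} [AddCommGroup V] [DistribMulAction (K ≃ₐ[ℚ] K) V]
  {inc : (c : C) → Bs c →+* L c} {cd : V →+ ((c : C) → (L c →+* K) → ZMod 2)}

theorem VB.two (h : VB inc cd) (v : V) : v + v = 0 := by
  apply h.inj
  rw [map_add, map_zero]
  ext c ι
  exact z2add _

/-- a linear form is given by coefficients -/
theorem coeff (h : VB inc cd) (φ : V →+ ZMod 2) :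
    ∃ a : (c : C) → (L c →+* K) → ZMod 2, ∀ s, φ s = ∑ c, ∑ ι, a c ι * cd s c ι := by
  classical
  let M : Module (ZMod 2) V := AddCommGroup.zmodModule (n := 2) (fun v => by
    rw [two_nsmul]; exact VB.two h v)
  let cl : V →ₗ[ZMod 2] ((c : C) → (L c →+* K) → ZMod 2) := AddMonoidHom.toZModLinearMap 2 cd
  have hcl : LinearMap.ker cl = ⊥ := LinearMap.ker_eq_bot.2 h.inj
  obtain ⟨g, hg⟩ := cl.exists_leftInverse_of_injective hcl
  let φl : V →ₗ[ZMod 2] ZMod 2 := AddMonoidHom.toZModLinearMap 2 φ
  refine ⟨fun c ι => φl (g (Pi.single c (Pi.single ι 1))), fun s => ?_⟩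
  have h1 : φ s = φl (g (cl s)) := by
    have h2 := LinearMap.congr_fun hg s
    change g (cl s) = s at h2
    rw [h2]
    rfl
  have h3 : cl s = ∑ c, ∑ ι, cd s c ι • (Pi.single c (Pi.single ι (1 : ZMod 2)) :
      (c : C) → (L c →+* K) → ZMod 2) := by
    ext c ι
    rw [Finset.sum_apply, Finset.sum_apply, Finset.sum_eq_single c]
    · rw [Finset.sum_apply, Finset.sum_apply, Finset.sum_eq_single ι]
      · rw [Pi.smul_apply, Pi.smul_apply, Pi.single_eq_same, Pi.single_eq_same, smul_eq_mul,
          mul_one]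
        rfl
      · intro ι' _ hne
        rw [Pi.smul_apply, Pi.smul_apply, Pi.single_eq_same, Pi.single_eq_of_ne (Ne.symm hne),
          smul_zero]
      · intro h'
        exact absurd (mem_univ _) h'
    · intro c' _ hne
      rw [Finset.sum_apply, Finset.sum_apply]
      refine sum_eq_zero fun ι' _ => ?_
      rw [Pi.smul_apply, Pi.smul_apply, Pi.single_eq_of_ne (Ne.symm hne), Pi.zero_apply, smul_zero]
    · intro h'
      exact absurd (mem_univ _) h'
  rw [h1, h3, map_sum, map_sum]
  refine sum_congr rfl fun c _ => ?_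
  rw [map_sum, map_sum]
  refine sum_congr rfl fun ι _ => ?_
  rw [map_smul, map_smul, smul_eq_mul, mul_comm]

open Classical in
/-- uniqueness of balanced coefficients -/
theorem uniq {th : (c : C) → 𝓞 (L c)} (hD : ∀ c, Dat K (inc c) (th c)) (h : VB inc cd)
    {a : (c : C) → (L c →+* K) → ZMod 2}
    (h0 : ∀ (c : C) (τ : Bs c →+* K), ∑ ι ∈ univ.filter (fun ι : L c →+* K =>
      ι.comp (inc c) = τ), a c ι = 0)
    (h1 : ∀ s, ∑ c, ∑ ι, a c ι * cd s c ι = 0) : ∀ c ι, a c ι = 0 := by
  intro c ι
  have hcon : ∀ ι' : L c →+* K, ι'.comp (inc c) = ι.comp (inc c) → a c ι' = a c ι := by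
    intro ι' hι'
    by_cases hne : ι' = ι
    · rw [hne]
    obtain ⟨s, hs⟩ := (h.im (Pi.single c (Pi.single ι 1 + Pi.single ι' 1))).2 (by
      intro c' τ
      by_cases hc : c' = c
      · subst hc
        rw [Pi.single_eq_same]
        simp only [Pi.add_apply, Finset.sum_add_distrib]
        by_cases hτ : ι.comp (inc c') = τ
        · rw [Finset.sum_eq_single_of_mem ι (mem_filter.2 ⟨mem_univ _, hτ⟩)
            (fun b _ hb => Pi.single_eq_of_ne hb _),
            Finset.sum_eq_single_of_mem ι' (mem_filter.2 ⟨mem_univ _, hι'.trans hτ⟩)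
            (fun b _ hb => Pi.single_eq_of_ne hb _), Pi.single_eq_same, Pi.single_eq_same]
          exact z2add 1
        · rw [Finset.sum_eq_zero, Finset.sum_eq_zero, add_zero]
          · intro b hb
            rw [Pi.single_eq_of_ne]
            rintro rfl
            exact hτ (hι'.symm.trans (mem_filter.1 hb).2)
          · intro b hb
            rw [Pi.single_eq_of_ne]
            rintro rfl
            exact hτ (mem_filter.1 hb).2
      · rw [Pi.single_eq_of_ne hc]
        simp)
    have h2 := h1 s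
    rw [hs, Finset.sum_eq_single c, Pi.single_eq_same] at h2
    · simp only [Pi.add_apply, mul_add, Finset.sum_add_distrib, Pi.single_apply, mul_ite, mul_one,
        mul_zero, Finset.sum_ite_eq', mem_univ, if_true] at h2
      have h3 : a c ι' = a c ι + (a c ι + a c ι') := by
        rw [← add_assoc, z2add, zero_add]
      rw [h3, h2, add_zero]
    · intro c' _ hc
      rw [Pi.single_eq_of_ne hc]
      simp
    · intro h'
      exact absurd (mem_univ _) h'
  have h2 := h0 c (ι.comp (inc c))
  rw [Finset.sum_congr rfl fun b hb => hcon b (mem_filter.1 hb).2, Finset.sum_const,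
    nsmul_eq_mul] at h2
  obtain ⟨k, hk⟩ := (hD c).odd (ι.comp (inc c))
  rw [hk] at h2
  have h3 : ((2 * k + 1 : ℕ) : ZMod 2) = 1 := by
    push_cast
    have h4 : (2 : ZMod 2) = 0 := by decide
    rw [h4, zero_mul, zero_add]
  rwa [h3, one_mul] at h2

end C

/-- **DUALG** -/
theorem dualg : S_DUALG := by
  classical
  intro C _ L Bs _ _ _ K _ _ inc th hD V _ _ cd h F φ hφ
  obtain ⟨a0, ha0⟩ := coeff h φ
  have hV : ∀ (s : V) (c : C) (τ : Bs c →+* K),
      ∑ ι ∈ univ.filter (fun ι : L c →+* K => ι.comp (inc c) = τ), cd s c ι = 0 :=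
    fun s => (h.im (cd s)).1 ⟨s, rfl⟩
  -- balanced coefficients
  let p : (c : C) → (Bs c →+* K) → ZMod 2 := fun c τ =>
    ∑ ι ∈ univ.filter (fun ι : L c →+* K => ι.comp (inc c) = τ), a0 c ι
  let a : (c : C) → (L c →+* K) → ZMod 2 := fun c ι => a0 c ι + p c (ι.comp (inc c))
  have ha : ∀ s, φ s = ∑ c, ∑ ι, a c ι * cd s c ι := by
    intro s
    rw [ha0 s]
    refine sum_congr rfl fun c _ => ?_
    have h1 : ∑ ι, a c ι * cd s c ι =
        ∑ ι, a0 c ι * cd s c ι + ∑ ι : L c →+* K, p c (ι.comp (inc c)) * cd s c ι := by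
      rw [← sum_add_distrib]
      exact sum_congr rfl fun ι _ => add_mul _ _ _
    rw [h1, sum_block (fun ι : L c →+* K => ι.comp (inc c)) (fun ι => cd s c ι) (p c) (hV s c),
      add_zero]
  have hbal : ∀ (c : C) (τ : Bs c →+* K), ∑ ι ∈ univ.filter (fun ι : L c →+* K =>
      ι.comp (inc c) = τ), a c ι = 0 := by
    intro c τ
    have h1 : ∑ ι ∈ univ.filter (fun ι : L c →+* K => ι.comp (inc c) = τ), a c ι =
        p c τ + ∑ ι ∈ univ.filter (fun ι : L c →+* K => ι.comp (inc c) = τ), p c τ := by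
      change ∑ ι ∈ univ.filter (fun ι : L c →+* K => ι.comp (inc c) = τ),
        (a0 c ι + p c (ι.comp (inc c))) = _
      rw [sum_add_distrib]
      refine congrArg₂ (fun x y => x + y) rfl (sum_congr rfl fun ι hι => ?_)
      rw [(mem_filter.1 hι).2]
    obtain ⟨k, hk⟩ := (hD c).odd τ
    rw [h1, sum_const, hk, add_nsmul, one_nsmul, mul_nsmul', ← add_assoc, add_right_comm, z2add,
      zero_add, two_nsmul, z2add]
  -- invariance
  have hinv : ∀ c ι, a c (cp F ι) = a c ι := by
    have h1 := uniq hD h (a := fun c ι => a c (cp F ι) + a c ι) (by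
      intro c τ
      rw [sum_add_distrib, hbal, add_zero]
      have h2 := hbal c ((F : K →+* K).comp τ)
      rw [← h2]
      refine sum_bij' (fun ι _ => cp F ι) (fun ι _ => cp F⁻¹ ι) ?_ ?_ ?_ ?_ ?_
      · intro ι hι
        rw [mem_filter] at hι ⊢
        exact ⟨mem_univ _, by rw [cp_comp, hι.2]⟩
      · intro ι hι
        rw [mem_filter] at hι ⊢
        refine ⟨mem_univ _, ?_⟩
        rw [cp_comp, hι.2]
        ext x
        exact F.symm_apply_apply _
      · intro ι _
        exact (cpe F).symm_apply_apply ι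
      · intro ι _
        exact (cpe F).apply_symm_apply ι
      · intro ι _
        rfl) (by
      intro s
      have h2 : ∑ c, ∑ ι, (a c (cp F ι) + a c ι) * cd s c ι =
          ∑ c, ∑ ι, a c (cp F ι) * cd s c ι + ∑ c, ∑ ι, a c ι * cd s c ι := by
        rw [← sum_add_distrib]
        refine sum_congr rfl fun c _ => ?_
        rw [← sum_add_distrib]
        exact sum_congr rfl fun ι _ => add_mul _ _ _
      have h3 : ∑ c, ∑ ι, a c (cp F ι) * cd s c ι = ∑ c, ∑ ι, a c ι * cd (F • s) c ι := by
        refine sum_congr rfl fun c _ => ?_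
        rw [← Equiv.sum_comp (cpe F) (fun ι => a c ι * cd (F • s) c ι)]
        refine sum_congr rfl fun ι _ => ?_
        rw [cpe_apply, h.eqv]
      rw [h2, h3, ← ha, ← ha, hφ, z2add])
    intro c ι
    have h2 := h1 c ι
    have h3 : a c (cp F ι) = (a c (cp F ι) + a c ι) + a c ι := by
      rw [add_assoc, z2add, add_zero]
    rw [h3]
    change a c (cp F ι) + a c ι = 0 at h2
    rw [h2, zero_add]
  refine ⟨fun c => univ.filter (fun ι => a c ι = 1), fun s => ?_, fun c ι => ?_⟩
  · rw [ha s]
    refine sum_congr rfl fun c _ => ?_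
    rw [sum_filter]
    refine sum_congr rfl fun ι _ => ?_
    rcases z2 (a c ι) with h1 | h1
    · rw [h1, zero_mul, if_neg (by decide)]
    · rw [h1, one_mul, if_pos rfl]
  · rw [mem_filter, mem_filter, hinv]
    simp only [mem_univ, true_and]

end Pool.Agent.Q224.ESG
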