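import Pool.Agent.Q224.ESG.QR

/-! Project ESG (helper161), job LJG: the local condition for one curve. -/

set_option autoImplicit false

namespace Pool.Agent.Q224.ESG

open Polynomial NumberField IsDedekindDomain Finset Pool.Agent.Q161.ESM
open Pool.Agent.Q51.EL (Abv Par)
open Pool.Agent.Q124.ESM (mem_of_val_lt val_one exp_neg_lt mv_of_fb)

theorem fixi {K : Type} [Field K] [NumberField K] (F : K ≃ₐ[ℚ] K) (c : ℤ) : F (c : K) = c :=
  map_intCast F c

theorem cne {K : Type} [Field K] [NumberField K] {x : 𝓞 K} (h : x ≠ 0) : (x : K) ≠ 0 :=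
  RingOfIntegers.coe_ne_zero_iff.2 h

/-- a sum of elements of `F_2` -/
theorem sum_card {X : Type} (A : Finset X) (e : X → ZMod 2) [DecidablePred fun x => e x = 1] :
    ∑ x ∈ A, e x = ((A.filter (fun x => e x = 1)).card : ZMod 2) := by
  rw [Finset.card_filter, Nat.cast_sum]
  refine sum_congr rfl fun x _ => ?_
  rcases z2 (e x) with h | h
  · simp [h]
  · simp [h]

theorem cast_ne (n : ℕ) : (n : ZMod 2) ≠ 0 ↔ n % 2 = 1 := by
  rw [Ne, ZMod.natCast_eq_zero_iff]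
  omega

section

variable {X V : Type} [Fintype V] {R : Type} [CommRing R]

open Classical in
theorem split_prod (A : Finset X) (e : V → X → ZMod 2) (z : V → R) :
    ∏ x ∈ A, ∏ s ∈ univ.filter (fun s => e s x = 1), z s =
      (∏ s ∈ univ.filter (fun s => ∑ x ∈ A, e s x ≠ 0), z s) *
        (∏ s, z s ^ ((A.filter (fun x => e s x = 1)).card / 2)) ^ 2 := by
  rw [Finset.prod_congr rfl fun x _ => prod_filter (fun s => e s x = 1) z, prod_comm,
    ← Finset.prod_pow, prod_filter, ← prod_mul_distrib]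
  refine prod_congr rfl fun s _ => ?_
  rw [← prod_filter, prod_const, sum_card A (e s)]
  generalize (A.filter (fun x => e s x = 1)).card = n
  by_cases h : n % 2 = 1
  · rw [if_pos ((cast_ne n).2 h), ← pow_mul, ← pow_succ']
    congr 1
    omega
  · rw [if_neg (fun h' => h ((cast_ne n).1 h')), one_mul, ← pow_mul]
    congr 1
    omega

end

/-- **LJG** -/
theorem ljg : S_LJG := by
  classical
  intro C _ L Bs _ _ _ K _ _ _ inc th hD V _ _ _ cd hV
  obtain ⟨B0, hB0, hfr⟩ := Pool.Agent.Q224.ESM.frx K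
  refine ⟨B0 * 2, by positivity, ?_⟩
  intro B hB hB0' μ a D D' α α' z z' hz hz' l hl hlB w F hw hFb t ht ht' c A hA
  have d1 : B0 ∣ B := (Dvd.intro _ rfl).trans hB
  have d2 : 2 ∣ B := (Dvd.intro_left _ rfl).trans hB
  have hl2 : l ≠ 2 := by
    rintro rfl
    exact hlB d2
  have hsq : Squarefree (Ideal.span {(l : 𝓞 K)}) := (hfr l hl fun h => hlB (h.trans d1)).1
  have hodd : 2 * ((l - 1) / 2) = l - 1 := by
    rcases hl.eq_two_or_odd' with h8 | ⟨n, hn⟩
    · exact absurd h8 hl2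
    · omega
  -- the type
  obtain ⟨hlD, htp⟩ := (mem_iff hz.rel hl hlB hw t).1 ht
  obtain ⟨hlD', htp'⟩ := (mem_iff hz'.rel hl hlB hw t).1 ht'
  have hzs : ∀ {D : ℤ} {α : (c : C) → 𝓞 (L c)} {z : V → 𝓞 K}, RG inc th cd B μ a D α z →
      z t ∈ w.asIdeal → ∀ s, s ≠ t → z s ∉ w.asIdeal := by
    intro D α z hz ht s hs hm
    have h2 := ((mem_iff hz.rel hl hlB hw t).1 ht).2
    have h3 := ((mem_iff hz.rel hl hlB hw s).1 hm).2
    exact hs (tpg_uniq hV h3 h2)
  obtain ⟨hFt, hY⟩ := gd_odd hz.rel hl hlB hw hFb hlD htp c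
  obtain ⟨-, hY'⟩ := gd_odd hz'.rel hl hlB hw hFb hlD' htp' c
  have hQ := hY A hA
  have hQ' := hY' A hA
  -- the set of the `s`
  let T : Finset V := univ.filter (fun s => ∑ ι ∈ A, cd (s - t) c ι ≠ 0)
  have hT : ∀ s ∈ T, s ≠ t := by
    rintro s hs rfl
    have h1 := (mem_filter.1 hs).2
    apply h1
    rw [sub_self, map_zero]
    simp
  have hPu : ∀ {D : ℤ} {α : (c : C) → 𝓞 (L c)} {z : V → 𝓞 K}, RG inc th cd B μ a D α z →
      z t ∈ w.asIdeal → w.valuation K (∏ s ∈ T, (z s : K)) = 1 := by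
    intro D α z hz ht
    rw [map_prod]
    exact prod_eq_one fun s hs => val_one (hzs hz ht s (hT s hs))
  have hPP : w.valuation K ((∏ s ∈ T, (z s : K)) * ∏ s ∈ T, (z' s : K)) = 1 := by
    rw [map_mul, hPu hz ht, hPu hz' ht', one_mul]
  have hcast : ((∏ s ∈ T, z s * z' s : 𝓞 K) : K) =
      (∏ s ∈ T, (z s : K)) * ∏ s ∈ T, (z' s : K) := by
    change algebraMap (𝓞 K) K _ = _
    rw [map_prod, ← prod_mul_distrib]
    refine prod_congr rfl fun s _ => ?_
    rw [map_mul]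
  suffices hQR : QR w l ((∏ s ∈ T, (z s : K)) * ∏ s ∈ T, (z' s : K)) by
    have h1 := qr_unit hl hl2 hsq hw hQR hPP
    rw [← hcast] at h1
    rw [← mem_of_val_lt]
    have h2 : (((∏ s ∈ T, z s * z' s) ^ ((l - 1) / 2) - 1 : 𝓞 K) : K) =
        ((∏ s ∈ T, z s * z' s : 𝓞 K) : K) ^ ((l - 1) / 2) - 1 := by
      change algebraMap (𝓞 K) K _ = _
      rw [map_sub, map_pow, map_one]
    change w.valuation K (((∏ s ∈ T, z s * z' s) ^ ((l - 1) / 2) - 1 : 𝓞 K) : K) < 1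
    rw [h2]
    exact h1
  -- the parts
  let ph : V → ZMod 2 := fun s => ∑ ι ∈ A, cd s c ι
  let nn : V → ℕ := fun s => (A.filter (fun ι => cd s c ι = 1)).card
  have hph : ∀ s, ph s = (nn s : ZMod 2) := fun s => sum_card A (cd s c)
  let Rr : (V → 𝓞 K) → K := fun z => ∏ s, (z s : K) ^ (nn s / 2)
  let P0 : (V → 𝓞 K) → K := fun z => ∏ s ∈ univ.filter (fun s => ph s ≠ 0), (z s : K)
  let Aa : (𝓞 (L c)) → K := fun x => ∏ ι ∈ A, ι (x : L c)
  let Lp : L c → K := fun x => ∏ ι ∈ A, ι x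
  have hLp : ∀ x, F (Lp x) = Lp x := fun x => prod_fixA hA (u := fun ι => ι x) fun ι => rfl
  have hLp0 : ∀ x : L c, x ≠ 0 → Lp x ≠ 0 := fun x hx =>
    prod_ne_zero_iff.2 fun ι _ => (map_ne_zero ι).2 hx
  let Uu : K := ∏ ι ∈ A, uu (inc c) (th c) (cd t c) ι
  have hUu : F Uu = Uu := prod_fixA hA (u := fun ι => uu (inc c) (th c) (cd t c) ι)
    (uu_fix hFt)
  have hUu0 : Uu ≠ 0 := prod_ne_zero_iff.2 fun ι _ => uu_ne (hD c) _ _
  -- invariance of `Rr`
  have hnn : ∀ s, nn (F • s) = nn s := by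
    intro s
    refine (card_bij' (fun ι _ => cp F ι) (fun ι _ => (cpe F).symm ι) ?_ ?_ ?_ ?_).symm
    · intro ι hι
      rw [mem_filter] at hι ⊢
      exact ⟨(hA ι).1 hι.1, by rw [hV.eqv]; exact hι.2⟩
    · intro ι hι
      obtain ⟨ι', rfl⟩ := (cpe F).surjective ι
      rw [Equiv.symm_apply_apply]
      rw [cpe_apply, mem_filter, hV.eqv] at hι
      rw [mem_filter]
      exact ⟨(hA ι').2 hι.1, hι.2⟩
    · intro ι _
      exact (cpe F).symm_apply_apply ι
    · intro ι _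
      exact (cpe F).apply_symm_apply ι
  have hRr : ∀ {D : ℤ} {α : (c : C) → 𝓞 (L c)} {z : V → 𝓞 K}, RG inc th cd B μ a D α z →
      F (Rr z) = Rr z ∧ Rr z ≠ 0 := by
    intro D α z hz
    constructor
    · change F (∏ s, (z s : K) ^ (nn s / 2)) = ∏ s, (z s : K) ^ (nn s / 2)
      rw [map_prod, ← Equiv.prod_comp (MulAction.toPerm F) (fun s => (z s : K) ^ (nn s / 2))]
      refine prod_congr rfl fun s _ => ?_
      rw [MulAction.toPerm_apply, hnn, map_pow, hz.rel.eqv F s]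
    · exact prod_ne_zero_iff.2 fun s _ => pow_ne_zero _ (cne (hz.rel.ne s))
  -- the identity `qa`
  have hqa : ∀ {D : ℤ} {α : (c : C) → 𝓞 (L c)} {z : V → 𝓞 K}, RG inc th cd B μ a D α z →
      ∃ q : L c, q ≠ 0 ∧ Lp (α c : L c) * (P0 z * Rr z ^ 2) = Lp (a c) * Lp q ^ 2 := by
    intro D α z hz
    obtain ⟨q, hq0, hq⟩ := hz.qa c
    refine ⟨q, hq0, ?_⟩
    change (∏ ι ∈ A, ι (α c : L c)) * ((∏ s ∈ univ.filter (fun s => ∑ ι ∈ A, cd s c ι ≠ 0),
      (z s : K)) * (∏ s, (z s : K) ^ ((A.filter (fun ι => cd s c ι = 1)).card / 2)) ^ 2) =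
      (∏ ι ∈ A, ι (a c)) * (∏ ι ∈ A, ι q) ^ 2
    rw [← split_prod A (fun s ι => cd s c ι) (fun s => (z s : K)), ← prod_mul_distrib,
      ← prod_pow, ← prod_mul_distrib]
    exact prod_congr rfl fun ι _ => hq ι
  have hYv : ∀ {D : ℤ} {α : (c : C) → 𝓞 (L c)}, ∏ ι ∈ A, ι (α c : L c) *
      (if cd t c ι = 1 then (D : K) else 1) * uu (inc c) (th c) (cd t c) ι =
      Lp (α c : L c) * (D : K) ^ nn t * Uu := by
    intro D α
    rw [prod_mul_distrib, prod_mul_distrib]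
    congr 2
    rw [← prod_filter, prod_const]
  rw [hYv] at hQ hQ'
  obtain ⟨q, hq0, e1⟩ := hqa hz
  obtain ⟨q', hq0', e1'⟩ := hqa hz'
  obtain ⟨r1, r2⟩ := hRr hz
  obtain ⟨r1', r2'⟩ := hRr hz'
  have hD0 : (D : K) ≠ 0 := Int.cast_ne_zero.2 hz.rel.sq.ne_zero
  have hD0' : (D' : K) ≠ 0 := Int.cast_ne_zero.2 hz'.rel.sq.ne_zero
  have hα0 : Lp (α c : L c) ≠ 0 := hLp0 _ (cne (hz.rel.a0 c))
  have hα0' : Lp (α' c : L c) ≠ 0 := hLp0 _ (cne (hz'.rel.a0 c))
  have hP0 : ∀ {D : ℤ} {α : (c : C) → 𝓞 (L c)} {z : V → 𝓞 K}, RG inc th cd B μ a D α z →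
      P0 z ≠ 0 := fun hz => prod_ne_zero_iff.2 fun s _ => cne (hz.rel.ne s)
  have ha0 : Lp (a c) ≠ 0 := by
    intro h
    rw [h, zero_mul] at e1
    exact mul_ne_zero hα0 (mul_ne_zero (hP0 hz) (pow_ne_zero 2 r2)) e1
  have hG := qr_mul hl hQ hQ'
  have hG0 : Lp (α c : L c) * (D : K) ^ nn t * Uu * (Lp (α' c : L c) * (D' : K) ^ nn t * Uu) ≠ 0 :=
    mul_ne_zero (mul_ne_zero (mul_ne_zero hα0 (pow_ne_zero _ hD0)) hUu0)
      (mul_ne_zero (mul_ne_zero hα0' (pow_ne_zero _ hD0')) hUu0)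
  rcases Nat.even_or_odd' (nn t) with ⟨n, hn | hn⟩
  · -- even
    have hTP : T = univ.filter (fun s => ph s ≠ 0) := by
      ext s
      rw [mem_filter, mem_filter]
      have h1 : ∑ ι ∈ A, cd (s - t) c ι = ph s - ph t := by
        rw [map_sub]
        exact sum_sub_distrib _ _
      have h2 : ph t = 0 := by
        rw [hph, hn]
        push_cast
        rw [show (2 : ZMod 2) = 0 by decide, zero_mul]
      rw [h1, h2, sub_zero]
    rw [hTP]
    change QR w l (P0 z * P0 z')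
    refine qr_of hl hl2 hsq hw hFb hG hG0 (X1 := Rr z * Rr z')
      (X2 := Lp (a c) * Lp q * Lp q' * ((D : K) * (D' : K)) ^ n * Uu) (by rw [map_mul, r1, r1'])
      (mul_ne_zero r2 r2') ?_ ?_ ?_
    · rw [map_mul, map_mul, map_mul, map_mul, map_pow, map_mul, fixi F D, fixi F D', hLp, hLp, hLp,
        hUu]
    · exact mul_ne_zero (mul_ne_zero (mul_ne_zero (mul_ne_zero ha0 (hLp0 _ hq0)) (hLp0 _ hq0'))
        (pow_ne_zero _ (mul_ne_zero hD0 hD0'))) hUu0
    · rw [hn]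
      calc _ = (Lp (α c : L c) * (P0 z * Rr z ^ 2)) * (Lp (α' c : L c) * (P0 z' * Rr z' ^ 2)) *
          (D : K) ^ (2 * n) * (D' : K) ^ (2 * n) * Uu ^ 2 := by ring
        _ = _ := by rw [e1, e1']; ring
  · -- odd
    have hTP : ∀ z : V → 𝓞 K, (∏ s ∈ T, (z s : K)) * P0 z = ∏ s, (z s : K) := by
      intro z
      have h0 : T = univ.filter (fun s => ¬ ph s ≠ 0) := by
        ext s
        rw [mem_filter, mem_filter]
        have h1 : ∑ ι ∈ A, cd (s - t) c ι = ph s - ph t := by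
          rw [map_sub]
          exact sum_sub_distrib _ _
        have h2 : ph t = 1 := by
          rw [hph, hn]
          push_cast
          rw [show (2 : ZMod 2) = 0 by decide, zero_mul, zero_add]
        rw [h1, h2]
        generalize ph s = x
        have h3 : x - 1 ≠ 0 ↔ ¬ x ≠ 0 := by revert x; decide
        rw [h3]
      rw [h0, mul_comm]
      exact prod_filter_mul_prod_filter_not univ (fun s => ph s ≠ 0) (fun s => (z s : K))
    have hqd : ∀ {D : ℤ} {α : (c : C) → 𝓞 (L c)} {z : V → 𝓞 K}, RG inc th cd B μ a D α z →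
        ∃ s : ℤ, s ≠ 0 ∧ (D : K) * ((∏ s ∈ T, (z s : K)) * P0 z) = (μ : K) * (s : K) ^ 2 := by
      intro D α z hz
      obtain ⟨s, hs0, hs⟩ := hz.qd
      refine ⟨s, hs0, ?_⟩
      rw [hTP]
      have h6 := congrArg (algebraMap (𝓞 K) K) hs
      rw [map_mul, map_prod, map_intCast, map_intCast] at h6
      rw [h6]
      push_cast
      ring
    obtain ⟨s, hs0, e2⟩ := hqd hz
    obtain ⟨s', hs0', e2'⟩ := hqd hz'
    have hTn : ∀ {D : ℤ} {α : (c : C) → 𝓞 (L c)} {z : V → 𝓞 K}, RG inc th cd B μ a D α z →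
        ∏ s ∈ T, (z s : K) ≠ 0 := fun hz => prod_ne_zero_iff.2 fun s _ => cne (hz.rel.ne s)
    have hμ : (μ : K) ≠ 0 := by
      intro h
      rw [h, zero_mul] at e2
      exact mul_ne_zero hD0 (mul_ne_zero (hTn hz) (hP0 hz)) e2
    have hsK : (s : K) ≠ 0 := Int.cast_ne_zero.2 hs0
    have hsK' : (s' : K) ≠ 0 := Int.cast_ne_zero.2 hs0'
    refine qr_of hl hl2 hsq hw hFb (qr_inv hG) (inv_ne_zero hG0)
      (X1 := Lp (a c) * Lp q * Lp q' * ((D : K) * (D' : K)) ^ (n + 1) * Uu)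
      (X2 := (μ : K) * s * s' * (Rr z * Rr z')) ?_ ?_ ?_ ?_ ?_
    · rw [map_mul, map_mul, map_mul, map_mul, map_pow, map_mul, fixi F D, fixi F D', hLp, hLp, hLp,
        hUu]
    · exact mul_ne_zero (mul_ne_zero (mul_ne_zero (mul_ne_zero ha0 (hLp0 _ hq0)) (hLp0 _ hq0'))
        (pow_ne_zero _ (mul_ne_zero hD0 hD0'))) hUu0
    · rw [map_mul, map_mul, map_mul, map_mul, fixi F μ, fixi F s, fixi F s', r1, r1']
    · exact mul_ne_zero (mul_ne_zero (mul_ne_zero hμ hsK) hsK') (mul_ne_zero r2 r2')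
    · rw [mul_assoc, mul_comm _⁻¹, ← mul_assoc, ← div_eq_mul_inv, div_eq_iff hG0, hn]
      generalize (∏ s ∈ T, (z s : K)) = P at *
      generalize (∏ s ∈ T, (z' s : K)) = P' at *
      have h1 : P * P' * (Lp (a c) * Lp q * Lp q') ^ 2 * ((D : K) * (D' : K)) =
          ((D : K) * (P * P0 z)) * ((D' : K) * (P' * P0 z')) *
            (Lp (α c : L c) * Lp (α' c : L c)) * (Rr z * Rr z') ^ 2 := by
        calc _ = P * P' * ((D : K) * (D' : K)) * (Lp (a c) * Lp q ^ 2) * (Lp (a c) * Lp q' ^ 2) := by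
              ring
          _ = _ := by rw [← e1, ← e1']; ring
      rw [e2, e2'] at h1
      calc _ = (P * P' * (Lp (a c) * Lp q * Lp q') ^ 2 * ((D : K) * (D' : K))) *
          ((D : K) * (D' : K)) ^ (2 * n + 1) * Uu ^ 2 := by ring
        _ = _ := by rw [h1]; ring

end Pool.Agent.Q224.ESG
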