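import Pool.Agent.Q224.ESG.LJG
import Pool.Agent.Q24.ESM.ADD

/-! Project ESG (helper161), job LOCG: the local conditions. -/

set_option autoImplicit false

namespace Pool.Agent.Q224.ESG

open Polynomial NumberField IsDedekindDomain Finset Pool.Agent.Q161.ESM
open Pool.Agent.Q51.EL (Abv Par)
open Pool.Agent.Q124.ESM (mem_of_val_lt val_one exp_neg_lt mv_of_fb)

/-- **LOCG** -/
theorem locg : S_DUALG → S_LJG → S_LOCG := by
  classical
  intro hDUAL hLJ C _ L Bs _ _ _ K _ _ _ inc th hD V _ _ _ cd hV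
  obtain ⟨B2, hB2, hLJ⟩ := hLJ C L Bs K inc th hD V cd hV
  have hDUAL := hDUAL C L Bs K inc th hD V cd hV
  have hADD : S_ADD := Pool.Agent.Q24.ESM.add
  refine ⟨B2 * 2, by positivity, ?_⟩
  intro B hB hB0 μ a l hl hlB w F hw hFb
  have d2 : B2 ∣ B := (Dvd.intro _ rfl).trans hB
  have d3 : 2 ∣ B := (Dvd.intro_left _ rfl).trans hB
  have hl2 : l ≠ 2 := by
    rintro rfl
    exact hlB d3
  have one : ∀ z : V → 𝓞 K, (∃ (D : ℤ) (α : (c : C) → 𝓞 (L c)), RG inc th cd B μ a D α z) →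
      ∀ t, z t ∈ w.asIdeal → F • t = t ∧ ∀ s, s ≠ t → z s ∉ w.asIdeal := by
    rintro z ⟨D, α, hz⟩ t ht
    obtain ⟨h1, h2⟩ := (mem_iff hz.rel hl hlB hw t).1 ht
    refine ⟨?_, fun s hs hm => hs ?_⟩
    · apply hV.inj
      ext c ι
      obtain ⟨h3, -⟩ := gd_odd hz.rel hl hlB hw hFb h1 h2 c
      obtain ⟨ι', rfl⟩ := (cpe F).surjective ι
      rw [cpe_apply, hV.eqv, h3]
    · exact tpg_uniq hV ((mem_iff hz.rel hl hlB hw s).1 hm).2 h2
  refine ⟨one, ?_⟩
  intro z hz z' hz' t ht ht' φ hφ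
  obtain ⟨A, h1, h2⟩ := hDUAL F φ hφ
  obtain ⟨hFt, hzs⟩ := one z hz t ht
  obtain ⟨-, hzs'⟩ := one z' hz' t ht'
  have hmax : w.asIdeal.IsMaximal := w.isMaximal
  have hprime : w.asIdeal.IsPrime := w.isPrime
  let fld : Field (𝓞 K ⧸ w.asIdeal) := Ideal.Quotient.field w.asIdeal
  let q : 𝓞 K →+* (𝓞 K ⧸ w.asIdeal) := Ideal.Quotient.mk w.asIdeal
  have hq : ∀ x : 𝓞 K, q x = 0 ↔ x ∈ w.asIdeal := fun x => Ideal.Quotient.eq_zero_iff_mem
  let ψ : C → (V →+ ZMod 2) := fun c =>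
    { toFun := fun s => ∑ ι ∈ A c, cd s c ι
      map_zero' := by
        rw [map_zero]
        simp
      map_add' := fun s s' => by
        rw [map_add, ← sum_add_distrib]
        rfl }
  have hψ : ∀ c s, ψ c s = ∑ ι ∈ A c, cd s c ι := fun c s => rfl
  obtain ⟨D, α, hz⟩ := hz
  obtain ⟨D', α', hz'⟩ := hz'
  have hfr : ∀ (y : V → 𝓞 K), Eqv y → ∀ s, q (y (F • s)) = q (y s) ^ l := by
    intro y hy s
    have h3 := hFb (y s) (y (F • s)) (hy F s)
    rw [← hq, map_sub, map_pow, sub_eq_zero] at h3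
    exact h3
  have key := hADD (𝓞 K ⧸ w.asIdeal) V C l hl hl2 (DistribSMul.toAddMonoidHom V F)
    (fun s => q (z s * z' s)) t (MulAction.bijective F) hFt
    (fun s => by
      change q (z (F • s) * z' (F • s)) = q (z s * z' s) ^ l
      rw [map_mul, map_mul, mul_pow, hfr z hz.rel.eqv, hfr z' hz'.rel.eqv])
    (fun s hs => by
      change q (z s * z' s) ≠ 0
      rw [Ne, hq]
      intro h3
      rcases hprime.mem_or_mem h3 with h4 | h4
      · exact hzs s hs h4
      · exact hzs' s hs h4)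
    univ ψ (fun c _ s => by
      change ∑ ι ∈ A c, cd (F • s) c ι = ∑ ι ∈ A c, cd s c ι
      refine (sum_bij' (fun ι _ => cp F ι) (fun ι _ => (cpe F).symm ι) ?_ ?_ ?_ ?_ ?_).symm
      · intro ι hι
        exact (h2 c ι).1 hι
      · intro ι hι
        rw [h2, ← cpe_apply, Equiv.apply_symm_apply]
        exact hι
      · intro ι _
        exact (cpe F).symm_apply_apply ι
      · intro ι _
        exact (cpe F).apply_symm_apply ι
      · intro ι _
        rw [hV.eqv])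
    (fun c _ => by
      have h3 := hLJ B d2 hB0 μ a D D' α α' z z' hz hz' l hl hlB w F hw hFb t ht ht'
        c (A c) (h2 c)
      rw [← hq, map_sub, map_one, map_pow, sub_eq_zero, map_prod] at h3
      exact h3)
  have hφψ : ∑ c, ψ c = φ := by
    ext s
    rw [AddMonoidHom.finsetSum_apply, h1]
    exact Finset.sum_congr rfl fun c _ => hψ c s
  rw [hφψ] at key
  rw [← hq, map_sub, map_one, map_pow, sub_eq_zero, map_prod]
  exact key

end Pool.Agent.Q224.ESG
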