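import Pool.Agent.Q237.ESM.Tl
import Pool.Agent.Q124.ESM.SqF
import Pool.Agent.Q224.ESM.FRX
import Pool.Agent.Q224.ESG.DUALG

/-! Project ESG (helper161): tools for the jobs LJG, LOCG, CNTG. -/

set_option autoImplicit false

namespace Pool.Agent.Q224.ESG

open Polynomial NumberField IsDedekindDomain Finset Pool.Agent.Q161.ESM
open Pool.Agent.Q51.EL (Abv Par)
open Pool.Agent.Q124.ESM (mem_of_val_lt val_one exp_neg_lt mv_of_fb)
open Pool.Agent.Q237.ESM (val_l)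

section

variable {K : Type} [Field K] [NumberField K] {w : HeightOneSpectrum (𝓞 K)} {l : ℕ}

theorem v_one {U : K} (h : w.valuation K (U - 1) < 1) : w.valuation K U = 1 := by
  have h1 : U = 1 + (U - 1) := by ring
  rw [h1]
  exact (w.valuation K).map_one_add_of_lt h

theorem qr_mul (hl : l.Prime) {Y Y' : K} (h : QR w l Y) (h' : QR w l Y') : QR w l (Y * Y') := by
  obtain ⟨k, hk⟩ := h
  obtain ⟨k', hk'⟩ := h'
  have hl0 : (l : K) ≠ 0 := Nat.cast_ne_zero.2 hl.ne_zero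
  refine ⟨k + k', ?_⟩
  have e : (Y * Y' * (l : K) ^ (2 * (k + k'))) ^ ((l - 1) / 2) - 1 =
      (Y * (l : K) ^ (2 * k)) ^ ((l - 1) / 2) * ((Y' * (l : K) ^ (2 * k')) ^ ((l - 1) / 2) - 1) +
        ((Y * (l : K) ^ (2 * k)) ^ ((l - 1) / 2) - 1) := by
    rw [mul_add, zpow_add₀ hl0, show Y * Y' * ((l : K) ^ (2 * k) * (l : K) ^ (2 * k')) =
      (Y * (l : K) ^ (2 * k)) * (Y' * (l : K) ^ (2 * k')) by ring, mul_pow]
    ring
  rw [e]
  refine Valuation.map_add_lt _ ?_ hk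
  rw [map_mul, v_one hk, one_mul]
  exact hk'

theorem qr_inv {Y : K} (h : QR w l Y) : QR w l Y⁻¹ := by
  obtain ⟨k, hk⟩ := h
  refine ⟨-k, ?_⟩
  have e : Y⁻¹ * (l : K) ^ (2 * -k) = (Y * (l : K) ^ (2 * k))⁻¹ := by
    rw [mul_inv, mul_neg, zpow_neg]
  rw [e, inv_pow]
  generalize (Y * (l : K) ^ (2 * k)) ^ ((l - 1) / 2) = U at hk
  have hU := v_one hk
  have hU0 : U ≠ 0 := by
    rintro rfl
    rw [map_zero] at hU
    exact zero_ne_one hU
  have e2 : U⁻¹ - 1 = - (U - 1) * U⁻¹ := by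
    field_simp
    ring
  rw [e2, map_mul, Valuation.map_neg, map_inv₀, hU, inv_one, mul_one]
  exact hk

theorem fix_pow (hl : l.Prime) {F : K ≃ₐ[ℚ] K} (hF : Fb w l F) {y : K} (h1 : F y = y)
    (h2 : w.valuation K y = 1) : w.valuation K (y ^ (l - 1) - 1) < 1 := by
  obtain ⟨a, ⟨b, hb⟩, hab⟩ := w.exists_primeCompl_mul_eq_of_integer (K := K) y h2.le
  change y * (b : K) = (a : K) at hab
  have hb' : b ∉ w.asIdeal := hb
  have hprime : w.asIdeal.IsPrime := w.isPrime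
  have ha' : a ∉ w.asIdeal := by
    intro ha
    have h4 := (mem_of_val_lt a).2 ha
    rw [← hab, map_mul, h2, val_one hb', one_mul] at h4
    exact lt_irrefl _ h4
  let φ : 𝓞 K →+* 𝓞 K := RingOfIntegers.mapRingHom (F : K →+* K)
  have hφ : ∀ u : 𝓞 K, (φ u : K) = F (u : K) := fun u => rfl
  have h5 : φ a * b = a * φ b := by
    apply RingOfIntegers.coe_injective
    rw [map_mul, map_mul]
    change (φ a : K) * (b : K) = (a : K) * (φ b : K)
    rw [hφ, hφ, ← hab, map_mul, h1]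
    ring
  let q : 𝓞 K →+* (𝓞 K ⧸ w.asIdeal) := Ideal.Quotient.mk w.asIdeal
  have hq : ∀ u : 𝓞 K, q u = 0 ↔ u ∈ w.asIdeal := fun u => Ideal.Quotient.eq_zero_iff_mem
  have hfr : ∀ u : 𝓞 K, q (φ u) = q u ^ l := by
    intro u
    have h6 := hF u (φ u) (hφ u)
    rwa [← hq, map_sub, map_pow, sub_eq_zero] at h6
  have hqa : q a ≠ 0 := fun h6 => ha' ((hq a).1 h6)
  have hqb : q b ≠ 0 := fun h6 => hb' ((hq b).1 h6)
  have hl1 : l = (l - 1) + 1 := (Nat.succ_pred_eq_of_pos hl.pos).symm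
  have h6 : q a ^ (l - 1) = q b ^ (l - 1) := by
    have h7 := congrArg q h5
    rw [map_mul, map_mul, hfr, hfr] at h7
    have h8 : q a ^ l = q a ^ (l - 1) * q a := by
      conv_lhs => rw [hl1]
      exact pow_succ _ _
    have h9 : q b ^ l = q b ^ (l - 1) * q b := by
      conv_lhs => rw [hl1]
      exact pow_succ _ _
    rw [h8, h9] at h7
    apply mul_right_cancel₀ (mul_ne_zero hqa hqb)
    calc q a ^ (l - 1) * (q a * q b) = q a ^ (l - 1) * q a * q b := by ring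
      _ = q a * (q b ^ (l - 1) * q b) := h7
      _ = q b ^ (l - 1) * (q a * q b) := by ring
  have h7 : a ^ (l - 1) - b ^ (l - 1) ∈ w.asIdeal := by
    rw [← hq, map_sub, map_pow, map_pow, h6, sub_self]
  have h8 := (mem_of_val_lt _).2 h7
  have h9 : ((a ^ (l - 1) - b ^ (l - 1) : 𝓞 K) : K) = (y ^ (l - 1) - 1) * (b : K) ^ (l - 1) := by
    change algebraMap (𝓞 K) K (a ^ (l - 1) - b ^ (l - 1)) = _
    rw [map_sub, map_pow, map_pow]
    change (a : K) ^ (l - 1) - (b : K) ^ (l - 1) = _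
    rw [← hab]
    ring
  rw [h9, map_mul, map_pow, val_one hb', one_pow, mul_one] at h8
  exact h8

theorem qr_sq (hl : l.Prime) (hl2 : l ≠ 2) (hsq : Squarefree (Ideal.span {(l : 𝓞 K)}))
    (hw : Abv w l) {F : K ≃ₐ[ℚ] K} (hF : Fb w l F) {x : K} (hx : F x = x) (hx0 : x ≠ 0) :
    QR w l (x ^ 2) := by
  have hv0 : w.valuation K x ≠ 0 := (Valuation.ne_zero_iff _).2 hx0
  refine ⟨WithZero.log (w.valuation K x), ?_⟩
  set n := WithZero.log (w.valuation K x) with hn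
  have h1 : w.valuation K (x * (l : K) ^ n) = 1 := by
    rw [map_mul, map_zpow₀, val_l hl hsq hw, ← WithZero.exp_zsmul, ← WithZero.exp_log hv0, ← hn,
      ← WithZero.exp_add, ← WithZero.exp_zero]
    congr 1
    simp
  have h2 := fix_pow hl hF (y := x * (l : K) ^ n) (by rw [map_mul, map_zpow₀, hx, map_natCast]) h1
  have hodd : 2 * ((l - 1) / 2) = l - 1 := by
    rcases hl.eq_two_or_odd' with h8 | ⟨n, hn⟩
    · exact absurd h8 hl2
    · omega
  have e : (x ^ 2 * (l : K) ^ (2 * n)) ^ ((l - 1) / 2) = (x * (l : K) ^ n) ^ (l - 1) := by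
    rw [← hodd, pow_mul]
    congr 1
    · rw [mul_pow, ← zpow_natCast ((l : K) ^ n), ← zpow_mul, mul_comm n]
      rfl
    · omega
  rw [e]
  exact h2

theorem qr_unit (hl : l.Prime) (hl2 : l ≠ 2) (hsq : Squarefree (Ideal.span {(l : 𝓞 K)}))
    (hw : Abv w l) {Y : K} (h : QR w l Y) (hY : w.valuation K Y = 1) :
    w.valuation K (Y ^ ((l - 1) / 2) - 1) < 1 := by
  obtain ⟨k, hk⟩ := h
  have h1 := v_one hk
  have hm : 0 < (l - 1) / 2 := by
    have := hl.two_le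
    omega
  rw [map_pow, map_mul, hY, one_mul, map_zpow₀, val_l hl hsq hw] at h1
  have h2 := (pow_eq_one_iff.1 h1).resolve_right hm.ne'
  rw [← WithZero.exp_zsmul, ← WithZero.exp_zero, WithZero.exp_inj] at h2
  have h3 : k = 0 := by
    simp at h2
    exact h2
  rw [h3, mul_zero, zpow_zero, mul_one] at hk
  exact hk

/-- transfer -/
theorem qr_of (hl : l.Prime) (hl2 : l ≠ 2) (hsq : Squarefree (Ideal.span {(l : 𝓞 K)}))
    (hw : Abv w l) {F : K ≃ₐ[ℚ] K} (hF : Fb w l F) {G H X1 X2 : K} (hG : QR w l G) (hG0 : G ≠ 0)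
    (h1 : F X1 = X1) (h10 : X1 ≠ 0) (h2 : F X2 = X2) (h20 : X2 ≠ 0)
    (e : H * G * X1 ^ 2 = X2 ^ 2) : QR w l H := by
  have h3 : H = (X2 * X1⁻¹) ^ 2 * G⁻¹ := by
    field_simp
    linear_combination e
  rw [h3]
  refine qr_mul hl (qr_sq hl hl2 hsq hw hF ?_ (mul_ne_zero h20 (inv_ne_zero h10))) (qr_inv hG)
  rw [map_mul, map_inv₀, h1, h2]

end

section

variable {K : Type} [Field K] [NumberField K] {L : Type} [Field L] [NumberField L]

/-- the product over a stable set is fixed -/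
theorem prod_fixA {F : K ≃ₐ[ℚ] K} {A : Finset (L →+* K)} (hA : ∀ ι, ι ∈ A ↔ cp F ι ∈ A)
    {u : (L →+* K) → K} (hu : ∀ ι, F (u ι) = u (cp F ι)) : F (∏ ι ∈ A, u ι) = ∏ ι ∈ A, u ι := by
  rw [map_prod, Finset.prod_congr rfl fun ι _ => hu ι]
  refine Finset.prod_bij' (fun ι _ => cp F ι) (fun ι _ => (cpe F).symm ι) ?_ ?_ ?_ ?_ ?_
  · intro ι hι
    exact (hA ι).1 hι
  · intro ι hι
    rw [hA, ← cpe_apply, Equiv.apply_symm_apply]
    exact hι
  · intro ι _
    exact (cpe F).symm_apply_apply ι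
  · intro ι _
    exact (cpe F).apply_symm_apply ι
  · intro ι _
    rfl

variable {Bs : Type} [Field Bs] {inc : Bs →+* L} {th : 𝓞 L}

theorem comp_inj (F : K ≃ₐ[ℚ] K) {τ τ' : Bs →+* K} (h : (F : K →+* K).comp τ = (F : K →+* K).comp τ') :
    τ = τ' := by
  ext x
  have h1 := RingHom.congr_fun h x
  exact F.injective h1

theorem uu_fix {F : K ≃ₐ[ℚ] K} {e : (L →+* K) → ZMod 2} (he : ∀ ι, e (cp F ι) = e ι)
    (ι : L →+* K) : F (uu inc th e ι) = uu inc th e (cp F ι) := by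
  classical
  have main : ∀ i : ZMod 2, ∏ ι' ∈ univ.filter (fun ι' : L →+* K => ι'.comp inc = ι.comp inc ∧
      e ι' = i), F (ι (th : L) - ι' (th : L)) = ∏ ι' ∈ univ.filter (fun ι' : L →+* K =>
      ι'.comp inc = (cp F ι).comp inc ∧ e ι' = i), (cp F ι (th : L) - ι' (th : L)) := by
    intro i
    refine Finset.prod_bij' (fun ι _ => cp F ι) (fun ι _ => (cpe F).symm ι) ?_ ?_ ?_ ?_ ?_
    · intro ι' hι'
      rw [mem_filter] at hι' ⊢
      refine ⟨mem_univ _, ?_, by rw [he]; exact hι'.2.2⟩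
      rw [cp_comp, cp_comp, hι'.2.1]
    · intro ι' hι'
      obtain ⟨ι'', rfl⟩ := (cpe F).surjective ι'
      rw [Equiv.symm_apply_apply]
      rw [cpe_apply] at hι'
      rw [mem_filter] at hι' ⊢
      refine ⟨mem_univ _, ?_, by rw [← he]; exact hι'.2.2⟩
      have h1 := hι'.2.1
      rw [cp_comp, cp_comp] at h1
      exact comp_inj F h1
    · intro ι _
      exact (cpe F).symm_apply_apply ι
    · intro ι _
      exact (cpe F).apply_symm_apply ι
    · intro ι' _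
      rw [map_sub]
      rfl
  unfold uu
  rw [he]
  split_ifs with h
  · rw [map_prod, ← main]
  · rw [map_neg, map_prod, ← main]

theorem uu_ne (hD : Dat K inc th) (e : (L →+* K) → ZMod 2) (ι : L →+* K) :
    uu inc th e ι ≠ 0 := by
  classical
  unfold uu
  split_ifs with h
  · refine Finset.prod_ne_zero_iff.2 fun ι' hι' h1 => ?_
    have h2 := (mem_filter.1 hι').2
    have h3 := hD.sep ι ι' h2.1.symm (sub_eq_zero.1 h1)
    rw [← h3, h] at h2
    exact zero_ne_one h2.2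
  · refine neg_ne_zero.2 (Finset.prod_ne_zero_iff.2 fun ι' hι' h1 => ?_)
    have h2 := (mem_filter.1 hι').2
    have h3 := hD.sep ι ι' h2.1.symm (sub_eq_zero.1 h1)
    rw [← h3] at h2
    exact h h2.2

end

section C

variable {C : Type} {K : Type} [Field K] [NumberField K] {L : C → Type}
  [∀ c, Field (L c)] [∀ c, NumberField (L c)] {Bs : C → Type} [∀ c, Field (Bs c)]
  {V : Type} [AddCommGroup V] [DistribMulAction (K ≃ₐ[ℚ] K) V]
  {inc : (c : C) → Bs c →+* L c} {th : (c : C) → 𝓞 (L c)}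
  {cd : V →+ ((c : C) → (L c →+* K) → ZMod 2)} {B : ℕ} {D : ℤ} {α : (c : C) → 𝓞 (L c)}
  {z : V → 𝓞 K}

theorem one_ne_exp : (1 : WithZero (Multiplicative ℤ)) ≠ WithZero.exp (-1 : ℤ) :=
  exp_neg_lt.ne'

theorem tpg_uniq (hV : VB inc cd) {w : HeightOneSpectrum (𝓞 K)} {s t : V} (hs : TpG cd α w s)
    (ht : TpG cd α w t) : s = t := by
  apply hV.inj
  ext c ι
  rcases z2 (cd s c ι) with h1 | h1 <;> rcases z2 (cd t c ι) with h2 | h2
  · rw [h1, h2]
  · exact absurd (((hs c ι).1 h1).symm.trans ((ht c ι).2 h2)) one_ne_exp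
  · exact absurd (((ht c ι).1 h2).symm.trans ((hs c ι).2 h1)) one_ne_exp
  · rw [h1, h2]

theorem mem_iff (h : RG0 inc th cd B D α z) {l : ℕ} (hl : l.Prime) (hB : ¬ l ∣ B)
    {w : HeightOneSpectrum (𝓞 K)} (hw : Abv w l) (t : V) :
    z t ∈ w.asIdeal ↔ (l : ℤ) ∣ D ∧ TpG cd α w t := by
  rw [← mem_of_val_lt]
  by_cases h1 : (l : ℤ) ∣ D ∧ TpG cd α w t
  · rw [(h.typ l hl hB w hw t).1 h1]
    exact ⟨fun _ => h1, fun _ => exp_neg_lt⟩
  · rw [(h.typ l hl hB w hw t).2 h1]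
    exact ⟨fun h' => absurd h' (lt_irrefl _), fun h' => absurd h' h1⟩

theorem par_iff {w : HeightOneSpectrum (𝓞 K)} {x : K} {i : ZMod 2}
    (h1 : i = 0 → w.valuation K x = 1) (h2 : i = 1 → w.valuation K x = WithZero.exp (-1 : ℤ))
    {j : ZMod 2} (h3 : j = 0 → Par w x 0) (h4 : j = 1 → Par w x 1) : j = i := by
  rcases z2 i with rfl | rfl <;> rcases z2 j with rfl | rfl
  · rfl
  · exfalso
    obtain ⟨k, hk⟩ := h4 rfl
    rw [h1 rfl, ← WithZero.exp_zero, WithZero.exp_inj] at hk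
    omega
  · exfalso
    obtain ⟨k, hk⟩ := h3 rfl
    rw [h2 rfl, WithZero.exp_inj] at hk
    omega
  · rfl

/-- the local condition, in terms of the type -/
theorem gd_odd (hR : RG0 inc th cd B D α z) {l : ℕ} (hl : l.Prime) (hB : ¬ l ∣ B)
    {w : HeightOneSpectrum (𝓞 K)} (hw : Abv w l) {F : K ≃ₐ[ℚ] K} (hF : Fb w l F)
    (hD : (l : ℤ) ∣ D) {t : V} (ht : TpG cd α w t) (c : C) :
    (∀ ι, cd t c (cp F ι) = cd t c ι) ∧ ∀ A : Finset (L c →+* K), (∀ ι, ι ∈ A ↔ cp F ι ∈ A) →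
      QR w l (∏ ι ∈ A, ι (α c : L c) * (if cd t c ι = 1 then (D : K) else 1) *
        uu (inc c) (th c) (cd t c) ι) := by
  obtain ⟨e, -, h2, h3, h4⟩ := (hR.gd c).odd l hl hB hD w hw F hF
  have he : e = cd t c := by
    ext ι
    exact par_iff (ht c ι).1 (ht c ι).2 (h3 ι).1 (h3 ι).2
  rw [← he]
  exact ⟨h2, h4⟩

end C

end Pool.Agent.Q224.ESG
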